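import Mathlib
import Pool.Agent.Lib.MP_3b7f8d_lc.Defs

/-! A deterministic two-phase dimension-by-dimension shadow-vertex simplex method. -/

namespace Pool.Agent.Lib.MP_3b7f8d_lc.DD

variable {n m : ℕ}

/-- The first `k` terms of a sequence. -/
def cut (u : ℕ → ℝ) (k : ℕ) : Fin k → ℝ := fun l => u l

/-- The system in the first `k` variables: rows `cut (a i) k ⬝ x ≤ β i`. -/
def tower (a : Fin m → ℕ → ℝ) (β : Fin m → ℝ) (k : ℕ) : Fin m → Row k :=
  fun i => (cut (a i) k, β i)

/-- The auxiliary objective of dimension `k`: plus or minus the last unit vector. -/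
def aux (k : ℕ) (s : Bool) : Fin k → ℝ :=
  fun l => if (l : ℕ) + 1 = k then (if s then 1 else -1) else 0

/-- An edge in dimension `k`: sign of the auxiliary objective, tight rows, start, direction. -/
structure Ray (m : ℕ) where
  k : ℕ
  s : Bool
  E : Finset (Fin m)
  v : Fin k → ℝ
  d : Fin k → ℝ

/-- The edge that the method follows from the basis `B` of dimension `k` with sign `s`: the
shadow-vertex rule from `aux k s` to the objective, or, if `B` is optimal and `k < top`, the
improving edge obtained by releasing the next variable. -/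
inductive Edge (a : Fin m → ℕ → ℝ) (β : Fin m → ℝ) (w : ℕ → ℝ) (top : ℕ) (k : ℕ) (s : Bool)
    (B : Finset (Fin m)) : Ray m → Prop
  | pivot (x d : Fin k → ℝ) (i : Fin m) : IsBFS (tower a β k) Finset.univ B x →
      Leaves (tower a β k) (aux k s) (cut w k) B i d → Edge a β w top k s B ⟨k, s, B.erase i, x, d⟩
  | lift (x : Fin k → ℝ) (y : Fin m → ℝ) (s' : Bool) (d : Fin (k + 1) → ℝ) : k < top →
      IsBFS (tower a β k) Finset.univ B x → IsDual (tower a β k) B (cut w k) y →
      (∀ i ∈ B, cut (a i) (k + 1) ⬝ᵥ d = 0) → 0 < cut w (k + 1) ⬝ᵥ d → aux (k + 1) s' ⬝ᵥ d < 0 →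
      Edge a β w top k s B ⟨k + 1, s', B, Fin.snoc x 0, d⟩

/-- The entries of `u` in the order `π`, followed by zeros. -/
def seq (π : Equiv.Perm (Fin n)) (u : Fin n → ℝ) (l : ℕ) : ℝ :=
  if h : l < n then u (π ⟨l, h⟩) else 0

/-- The point whose first `k` variables in the order `π` are `x`, the others being zero. -/
def pad (π : Equiv.Perm (Fin n)) {k : ℕ} (x : Fin k → ℝ) (j : Fin n) : ℝ :=
  if h : (π.symm j : ℕ) < k then x ⟨π.symm j, h⟩ else 0

/-- Coefficients. Phase one (`true`): rows `(b i - 1) μ + a i ⬝ x ≤ 1`; phase two: the input. -/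
def coef (π : Equiv.Perm (Fin n)) (inp : Fin m → Row n) : Bool → Fin m → ℕ → ℝ
  | true, i, 0 => (inp i).2 - 1
  | true, i, l + 1 => seq π (inp i).1 l
  | false, i, l => seq π (inp i).1 l

/-- Right-hand sides of the two phases. -/
def rhs (inp : Fin m → Row n) : Bool → Fin m → ℝ
  | true, _ => 1
  | false, i => (inp i).2

/-- Objectives of the two phases: `-μ`, then `c`. -/
def obj (π : Equiv.Perm (Fin n)) (c : Fin n → ℝ) : Bool → ℕ → ℝ
  | true, l => if l = 0 then -1 else 0
  | false, l => seq π c l

/-- The number of variables of the two phases. -/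
def dim (n : ℕ) : Bool → ℕ
  | true => n + 1
  | false => n

/-- States: phase, dimension, sign, basis. -/
abbrev State (m : ℕ) := Bool × ℕ × Bool × Finset (Fin m)

/-- One step: a blocking row enters the basis, or phase one reaches `-μ = 1` on the edge. -/
inductive Step (π : Equiv.Perm (Fin n)) (inp : Fin m → Row n) (c : Fin n → ℝ) :
    State m → State m → Prop
  | enter (ph : Bool) (k : ℕ) (s : Bool) (B : Finset (Fin m)) (e : Ray m) (j : Fin m)
      (x : Fin e.k → ℝ) : Edge (coef π inp ph) (rhs inp ph) (obj π c ph) (dim n ph) k s B e →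
      0 < cut (coef π inp ph j) e.k ⬝ᵥ e.d →
      IsBFS (tower (coef π inp ph) (rhs inp ph) e.k) Finset.univ (insert j e.E) x →
      (ph = true → cut (obj π c ph) e.k ⬝ᵥ x < 1) →
      Step π inp c (ph, k, s, B) (ph, e.k, e.s, insert j e.E)
  | cross (k : ℕ) (s : Bool) (B : Finset (Fin m)) (e : Ray m) (t : ℝ) :
      Edge (coef π inp true) (rhs inp true) (obj π c true) (n + 1) k s B e →
      (∀ i, cut (coef π inp true i) e.k ⬝ᵥ (e.v + t • e.d) ≤ 1) →
      cut (obj π c true) e.k ⬝ᵥ (e.v + t • e.d) = 1 →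
      Step π inp c (true, k, s, B) (false, e.k - 1, e.s, e.E)

/-- The stopping rules. -/
inductive Stops (π : Equiv.Perm (Fin n)) (inp : Fin m → Row n) (c : Fin n → ℝ) :
    State m → Answer n → Prop
  | infeasible (s : Bool) (B : Finset (Fin m)) (x : Fin (n + 1) → ℝ) (y : Fin m → ℝ) :
      IsBFS (tower (coef π inp true) (rhs inp true) (n + 1)) Finset.univ B x →
      cut (obj π c true) (n + 1) ⬝ᵥ x < 1 →
      IsDual (tower (coef π inp true) (rhs inp true) (n + 1)) B (cut (obj π c true) (n + 1)) y →
      Stops π inp c (true, n + 1, s, B) .infeasible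
  | unbounded (k : ℕ) (s : Bool) (B : Finset (Fin m)) (e : Ray m) :
      Edge (coef π inp false) (rhs inp false) (obj π c false) n k s B e →
      (∀ i, cut (coef π inp false i) e.k ⬝ᵥ e.d ≤ 0) → Stops π inp c (false, k, s, B) .unbounded
  | optimal (k : ℕ) (s : Bool) (B : Finset (Fin m)) (x : Fin k → ℝ) :
      IsBFS (tower (coef π inp false) (rhs inp false) k) Finset.univ B x →
      (c = 0 ∨ k = n ∧ ∃ y,
        IsDual (tower (coef π inp false) (rhs inp false) k) B (cut (obj π c false) k) y) →
      Stops π inp c (false, k, s, B) (.optimal (pad π x))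

/-- Every execution from the state `s` stops after at most `N` steps with an answer in `ok`. -/
inductive Halts (π : Equiv.Perm (Fin n)) (inp : Fin m → Row n) (c : Fin n → ℝ)
    (ok : Answer n → Prop) : State m → ℕ → Prop
  | stop (s : State m) (N : ℕ) : (∃ a, Stops π inp c s a) → (∀ a, Stops π inp c s a → ok a) →
      Halts π inp c ok s N
  | step (s : State m) (N : ℕ) : (¬ ∃ a, Stops π inp c s a) → (∃ s', Step π inp c s s') →
      (∀ s', Step π inp c s s' → Halts π inp c ok s' N) → Halts π inp c ok s (N + 1)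

end Pool.Agent.Lib.MP_3b7f8d_lc.DD
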