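import Mathlib
import Pool.Agent.Lib.MP_3b7f8d_lc.Run
import Pool.Agent.Lib.MP_3b7f8d_lc.DD.Defs

/-! Edges of the dimension-by-dimension method. -/

namespace Pool.Agent.Lib.MP_3b7f8d_lc.DD

open Finset

variable {m k : ℕ}

theorem cut_snoc (u : ℕ → ℝ) (x : Fin k → ℝ) (t : ℝ) :
    cut u (k + 1) ⬝ᵥ Fin.snoc x t = cut u k ⬝ᵥ x + u k * t := by
  simp [dotProduct, Fin.sum_univ_castSucc, cut]

theorem cut_tail (u : ℕ → ℝ) (x : Fin (k + 1) → ℝ) :
    cut u (k + 1) ⬝ᵥ x = u 0 * x 0 + cut (fun l => u (l + 1)) k ⬝ᵥ Fin.tail x := by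
  simp [dotProduct, Fin.sum_univ_succ, cut, Fin.tail]

/-- The properties of an edge. -/
structure OK (r : Fin m → Row k) (z w : Fin k → ℝ) (E : Finset (Fin m)) (v d : Fin k → ℝ) :
    Prop where
  card : E.card + 1 = k
  li : LinearIndependent ℝ fun i : E => (r i).1
  tight : ∀ i ∈ E, (r i).1 ⬝ᵥ v = (r i).2
  feas : ∀ i, (r i).1 ⬝ᵥ v ≤ (r i).2
  orth : ∀ i ∈ E, (r i).1 ⬝ᵥ d = 0
  up : 0 < w ⬝ᵥ d
  dual : ∃ t : ℝ, ∃ y : Fin m → ℝ, 0 ≤ t ∧ (∀ i ∈ E, 0 ≤ y i) ∧ z + t • w = ∑ i ∈ E, y i • (r i).1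

section
variable {r : Fin m → Row k} {z w v d : Fin k → ℝ} {E : Finset (Fin m)} {j : Fin m}

theorem OK.onDual (h : OK r z w E v d) (hj : 0 < (r j).1 ⬝ᵥ d) : OnDual r z w (insert j E) := by
  obtain ⟨t, y, ht, hy, hw⟩ := h.dual
  have hj' : j ∉ E := fun h' => hj.ne' (h.orth j h')
  refine ⟨t, Function.update y j 0, ht, fun l hl => ?_, ?_⟩
  · rcases mem_insert.1 hl with rfl | hl
    · simp
    · rw [Function.update_of_ne (ne_of_mem_of_not_mem hl hj')]
      exact hy l hl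
  · rw [sum_insert hj', Function.update_self, zero_smul, zero_add, hw]
    exact sum_congr rfl fun l hl => by rw [Function.update_of_ne (ne_of_mem_of_not_mem hl hj')]

theorem OK.enter (h : OK r z w E v d) (hb : ¬ ∀ j, (r j).1 ⬝ᵥ d ≤ 0) :
    ∃ j, ∃ s : ℝ, 0 ≤ s ∧ 0 < (r j).1 ⬝ᵥ d ∧ IsBFS r univ (insert j E) (v + s • d) := by
  have hne : (univ.filter fun l => 0 < (r l).1 ⬝ᵥ d).Nonempty := by
    push Not at hb
    obtain ⟨j, hj⟩ := hb
    exact ⟨j, mem_filter.2 ⟨mem_univ _, hj⟩⟩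
  obtain ⟨j, hj, hmin⟩ := exists_min_image _
    (fun l => ((r l).2 - (r l).1 ⬝ᵥ v) / ((r l).1 ⬝ᵥ d)) hne
  have hjd := (mem_filter.1 hj).2
  have hj' : j ∉ E := fun h' => hjd.ne' (h.orth j h')
  have hs0 : 0 ≤ ((r j).2 - (r j).1 ⬝ᵥ v) / ((r j).1 ⬝ᵥ d) :=
    div_nonneg (sub_nonneg.2 (h.feas j)) hjd.le
  refine ⟨j, _, hs0, hjd, subset_univ _, by rw [card_insert_of_notMem hj', h.card],
    li_of (a := fun l => (r l).1) fun y hy => ?_, fun l hl => ?_, fun l _ => ?_⟩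
  · rw [sum_insert hj'] at hy
    have h1 := congrArg (· ⬝ᵥ d) hy
    simp only [add_dotProduct, sum_dot, sum_eq_zero fun l hl => show y l * ((r l).1 ⬝ᵥ d) = 0 by
      rw [h.orth l hl, mul_zero], smul_dotProduct, add_zero, zero_dotProduct, smul_eq_mul,
      mul_eq_zero, hjd.ne', or_false] at h1
    rw [h1, zero_smul, zero_add] at hy
    intro l hl
    rcases mem_insert.1 hl with rfl | hl
    · exact h1
    · exact mult_unique h.li (y' := fun _ => 0) (hy.trans (by simp)) l hl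
  · rw [dotProduct_add, dotProduct_smul, smul_eq_mul]
    rcases mem_insert.1 hl with rfl | hl
    · rw [div_mul_cancel₀ _ hjd.ne']
      ring
    · rw [h.orth l hl, h.tight l hl, mul_zero, add_zero]
  · rw [dotProduct_add, dotProduct_smul, smul_eq_mul]
    by_cases h' : 0 < (r l).1 ⬝ᵥ d
    · have := hmin l (mem_filter.2 ⟨mem_univ _, h'⟩)
      rw [le_div_iff₀ h'] at this
      linarith
    · have := h.feas l
      have := mul_nonpos_of_nonneg_of_nonpos hs0 (not_lt.1 h')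
      linarith

end

variable {a : Fin m → ℕ → ℝ} {β : Fin m → ℝ} {w : ℕ → ℝ} {top : ℕ} {s : Bool}
  {B : Finset (Fin m)}

theorem sum_castSucc (y : Fin m → ℝ) (l : Fin k) :
    (∑ i ∈ B, y i • (tower a β (k + 1) i).1) l.castSucc = (∑ i ∈ B, y i • (tower a β k i).1) l := by
  simp [tower, cut]

theorem lift_dual {y : Fin m → ℝ} (hy : cut w k = ∑ i ∈ B, y i • (tower a β k i).1) (s' : Bool) :
    ∃ τ : ℝ, ∑ i ∈ B, y i • (tower a β (k + 1) i).1 = cut w (k + 1) + τ • aux (k + 1) s' := by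
  refine ⟨((∑ i ∈ B, y i • (tower a β (k + 1) i).1) (Fin.last k) - w k) * (if s' then 1 else -1),
    funext fun l => ?_⟩
  refine Fin.lastCases ?_ (fun l => ?_) l
  · cases s' <;> simp [aux, cut]
  · have h : aux (k + 1) s' l.castSucc = 0 := by simp [aux, l.2.ne]
    rw [sum_castSucc, ← hy, Pi.add_apply, Pi.smul_apply, h, smul_zero, add_zero]
    rfl

theorem Edge.ok {e : Ray m} (h : Edge a β w top k s B e) :
    OK (tower a β e.k) (aux e.k e.s) (cut w e.k) e.E e.v e.d ∧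
      ∀ x, IsBFS (tower a β k) univ B x → cut w e.k ⬝ᵥ e.v = cut w k ⬝ᵥ x := by
  cases h with
  | pivot x d i hx hL =>
    obtain ⟨t, y, ht, hy, -, hw⟩ := hL.param
    refine ⟨⟨by rw [card_erase_add_one hL.1, hx.2.1], ?_, fun l hl => hx.2.2.2.1 l
      (mem_of_mem_erase hl), fun l => hx.2.2.2.2 l (mem_univ l), hL.2.2.1, hL.2.2.2.1, t, y, ht,
      fun l hl => hy.1 l (mem_of_mem_erase hl), hw⟩, fun x' hx' => by rw [hx.unique hx']⟩
    exact LinearIndepOn.mono (v := fun l => (tower a β k l).1) hx.2.2.1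
      (coe_subset.2 (erase_subset _ _))
  | lift x y s' d hk hx hy h1 h2 h3 =>
    have e1 : ∀ u, cut u (k + 1) ⬝ᵥ Fin.snoc x 0 = cut u k ⬝ᵥ x := fun u => by
      rw [cut_snoc, mul_zero, add_zero]
    refine ⟨⟨by rw [hx.2.1], li_of (a := fun l => (tower a β (k + 1) l).1) fun y' hy' =>
      mult_unique hx.2.2.1 (y' := fun _ => 0) (funext fun l => ?_),
      fun l hl => (e1 _).trans (hx.2.2.2.1 l hl),
      fun l => (e1 _).trans_le (hx.2.2.2.2 l (mem_univ l)), h1, h2, ?_⟩,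
      fun x' hx' => by rw [← hx.unique hx']; exact e1 w⟩
    · rw [← sum_castSucc, hy']
      simp
    obtain ⟨τ, hτ⟩ := lift_dual hy.2 s'
    have h4 := congrArg (· ⬝ᵥ d) hτ
    simp only [sum_dot, add_dotProduct, smul_dotProduct, smul_eq_mul] at h4
    rw [sum_eq_zero fun l hl => mul_eq_zero_of_right (y l) (b := (tower a β (k + 1) l).1 ⬝ᵥ d)
      (h1 l hl)] at h4
    have h5 : 0 < τ := by
      by_contra h5
      nlinarith
    refine ⟨τ⁻¹, fun l => τ⁻¹ * y l, by positivity,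
      fun l hl => mul_nonneg (by positivity) (hy.1 l hl), ?_⟩
    simp only [mul_smul, ← smul_sum, hτ, smul_add, inv_smul_smul₀ h5.ne', add_comm]

/-- No row lies in the sum of `V` and the span of few other rows. -/
def Gen (r : Fin m → Row k) (V : Submodule ℝ (Fin k → ℝ)) : Prop :=
  ∀ (i : Fin m) (T : Finset (Fin m)), i ∉ T → Module.finrank ℝ V + T.card < k →
    ¬ ∃ v ∈ V, ∃ c : Fin m → ℝ, (r i).1 = v + ∑ l ∈ T, c l • (r l).1

theorem Gen.eq_zero {r : Fin m → Row k} {V : Submodule ℝ (Fin k → ℝ)} (h : Gen r V)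
    {T : Finset (Fin m)} (hT : Module.finrank ℝ V + T.card ≤ k) {y : Fin m → ℝ}
    (hy : ∑ l ∈ T, y l • (r l).1 ∈ V) : ∑ l ∈ T, y l • (r l).1 = 0 := by
  refine sum_eq_zero fun i hi => ?_
  by_contra h0
  have h1 : y i ≠ 0 := fun h1 => h0 (by rw [h1, zero_smul])
  refine h i (T.erase i) (notMem_erase _ _) (by have := card_erase_add_one hi; omega)
    ⟨_, V.smul_mem (y i)⁻¹ hy, fun l => -(y i)⁻¹ * y l, ?_⟩
  simp only [mul_smul, ← smul_sum]
  rw [← add_sum_erase _ _ hi, smul_add, inv_smul_smul₀ h1]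
  module

theorem aux_add_ne (hk : 2 ≤ k) (hw : w 0 ≠ 0) (t : ℝ) : aux k s + t • cut w k ≠ 0 := by
  intro h
  have h1 := congrFun h ⟨0, by omega⟩
  have h2 := congrFun h ⟨k - 1, by omega⟩
  have h3 : ¬ 1 = k := by omega
  have h4 : k - 1 + 1 = k := by omega
  simp only [aux, cut, Pi.add_apply, Pi.smul_apply, zero_add, h3, if_false, smul_eq_mul,
    Pi.zero_apply, mul_eq_zero, hw, or_false] at h1
  cases s <;> simp [aux, h1, h4] at h2

theorem aux_mem (s : Bool) (t : ℝ) (u : Fin k → ℝ) :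
    ∃ c : ℝ, aux k s + t • u = c • aux k true + t • u :=
  ⟨if s then 1 else -1, by ext l; cases s <;> simp [aux, neg_ite]⟩

theorem Gen.nondeg {r : Fin m → Row k} (hw : w 0 ≠ 0)
    (h : Gen r (Submodule.span ℝ {aux k true, cut w k})) : Nondeg r (aux k s) (cut w k) := by
  classical
  intro B hB t y hy i hi j hj hyi hyj
  have h1 := card_erase_add_one hi
  have h2 := card_erase_add_one hj
  rw [← add_sum_erase _ _ hi, ← add_sum_erase _ _ hj, hyi, hyj, zero_smul, zero_smul, zero_add,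
    zero_add] at hy
  refine aux_add_ne (s := s) (by omega) hw t (hy.trans (h.eq_zero ?_ ?_))
  · have h3 := finrank_span_finset_le_card (R := ℝ) ({aux k true, cut w k} : Finset (Fin k → ℝ))
    have h4 := card_le_two (a := aux k true) (b := cut w k)
    rw [Set.finrank, coe_insert, coe_singleton] at h3
    omega
  · obtain ⟨c, hc⟩ := aux_mem s t (cut w k)
    rw [← hy, hc]
    exact Submodule.mem_span_pair.2 ⟨c, t, rfl⟩

theorem exists_edge (hw : w 0 ≠ 0) {x : Fin k → ℝ} (hx : IsBFS (tower a β k) univ B x)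
    (hd : OnDual (tower a β k) (aux k s) (cut w k) B)
    (hG : Gen (tower a β (k + 1)) (Submodule.span ℝ {cut w (k + 1)}) ∨ ¬ k < top)
    (hn : k < top ∨ ¬ ∃ y, IsDual (tower a β k) B (cut w k) y) :
    ∃ e, Edge a β w top k s B e := by
  by_cases h : ∃ y, IsDual (tower a β k) B (cut w k) y
  swap
  · obtain ⟨i, d, hL⟩ := exists_leaves hx.2.1 hx.2.2.1 hd h
    exact ⟨_, .pivot x d i hx hL⟩
  have hk := hn.resolve_right (not_not.2 h)
  obtain ⟨y, hy⟩ := h
  obtain ⟨u, hu⟩ := exists_dot hx.2.1 hx.2.2.1 fun i => -a i k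
  have h1 : ∀ ε : ℝ, ∀ i ∈ B, cut (a i) (k + 1) ⬝ᵥ Fin.snoc (ε • u) ε = 0 := fun ε i hi => by
    have h2 : cut (a i) k ⬝ᵥ u = -a i k := hu i hi
    rw [cut_snoc, dotProduct_smul, h2, smul_eq_mul]
    ring
  have h2 : ∀ (ε : ℝ) (s' : Bool), aux (k + 1) s' ⬝ᵥ Fin.snoc (ε • u) ε =
      (if s' then 1 else -1) * ε := fun ε s' => by
    simp [dotProduct, Fin.sum_univ_castSucc, aux, Nat.ne_of_lt]
  have h3 : cut w k ⬝ᵥ u + w k ≠ 0 := by
    intro h3
    obtain ⟨τ, hτ⟩ := lift_dual hy.2 true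
    have h4 := congrArg (· ⬝ᵥ Fin.snoc ((1 : ℝ) • u) 1) hτ
    simp only [sum_dot, add_dotProduct, smul_dotProduct, smul_eq_mul, h2] at h4
    rw [sum_eq_zero fun l hl => mul_eq_zero_of_right (y l)
      (b := (tower a β (k + 1) l).1 ⬝ᵥ Fin.snoc ((1 : ℝ) • u) 1) (h1 1 l hl), cut_snoc, one_smul,
      mul_one, h3] at h4
    have h5 : τ = 0 := by simpa using h4.symm
    rw [h5, zero_smul, add_zero] at hτ
    have h6 := (hG.resolve_right (not_not.2 hk)).eq_zero (T := B) (y := y) (by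
      have h7 := finrank_span_le_card (R := ℝ) ({cut w (k + 1)} : Set (Fin (k + 1) → ℝ))
      simp only [Set.toFinset_singleton, card_singleton] at h7
      have := hx.2.1
      omega) (hτ ▸ Submodule.mem_span_singleton_self _)
    exact hw (congrFun (hτ.symm.trans h6) 0)
  rcases lt_or_gt_of_ne h3 with h4 | h4
  · refine ⟨_, .lift x y true (Fin.snoc ((-1 : ℝ) • u) (-1)) hk hx hy (h1 _) ?_ ?_⟩
    · rw [cut_snoc, dotProduct_smul, smul_eq_mul]
      linarith
    · rw [h2]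
      simp
  · refine ⟨_, .lift x y false (Fin.snoc ((1 : ℝ) • u) 1) hk hx hy (h1 _) ?_ ?_⟩
    · rw [cut_snoc, dotProduct_smul, smul_eq_mul]
      linarith
    · rw [h2]
      simp

end Pool.Agent.Lib.MP_3b7f8d_lc.DD
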