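import Mathlib
import Pool.Agent.Lib.MP_3b7f8d_lc.DD.Edge
import Pool.Agent.Lib.MP_3b7f8d_lc.FP.Plane

/-! Executions of the dimension-by-dimension method. -/

namespace Pool.Agent.Lib.MP_3b7f8d_lc.DD

open Finset

variable {n m : ℕ} (π : Equiv.Perm (Fin n)) (inp : Fin m → Row n) (c : Fin n → ℝ)

/-- The system of a stage. -/
abbrev sy (ph : Bool) (k : ℕ) : Fin m → Row k := tower (coef π inp ph) (rhs inp ph) k

/-- A bound for the number of bases met in a stage. -/
noncomputable def len (ph : Bool) (k : ℕ) : ℕ :=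
  m + 2 + {B | FP.InShadow (sy π inp ph k) (aux k true) (cut (obj π c ph) k) B}.ncard

/-- The bound for the later stages. -/
noncomputable def tail (ph : Bool) (k : ℕ) : ℕ :=
  ∑ k' ∈ Ico (k + 1) (dim n ph + 1), len π inp c ph k' +
    if ph then ∑ k' ∈ Ico 0 (n + 1), len π inp c false k' else 0

/-- The potential of a state. -/
noncomputable def rank (s : State m) : ℕ :=
  {B | (∃ x, IsBFS (sy π inp s.1 s.2.1) univ B x) ∧ After (sy π inp s.1 s.2.1) (aux s.2.1 s.2.2.1)
    (cut (obj π c s.1) s.2.1) s.2.2.2 B}.ncard + tail π inp c s.1 s.2.1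

/-- The invariant. -/
def Inv (s : State m) : Prop :=
  s.2.1 ≤ dim n s.1 ∧ ∃ x, IsBFS (sy π inp s.1 s.2.1) univ s.2.2.2 x ∧
    OnDual (sy π inp s.1 s.2.1) (aux s.2.1 s.2.2.1) (cut (obj π c s.1) s.2.1) s.2.2.2 ∧
    (s.1 = true → cut (obj π c s.1) s.2.1 ⬝ᵥ x < 1)

/-- Generic inputs. -/
def GenAll : Prop := ∀ ph k, k ≤ dim n ph →
  Gen (sy π inp ph k) (Submodule.span ℝ {aux k true, cut (obj π c ph) k}) ∧
    Gen (sy π inp ph k) (Submodule.span ℝ {cut (obj π c ph) k})

variable {π inp c}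

theorem rank_lt (hc : c = 0 ∨ seq π c 0 ≠ 0) (ph : Bool) (k : ℕ) (s : Bool) (B : Finset (Fin m)) :
    rank π inp c (ph, k, s, B) < len π inp c ph k + tail π inp c ph k := by
  refine Nat.add_lt_add_right ?_ _
  rcases le_or_gt 2 k with hk | hk
  · refine lt_of_le_of_lt (Set.ncard_le_ncard ?_) (Nat.lt_add_of_pos_left (by omega))
    rintro B' ⟨hx, t, y, -, hy, -⟩
    obtain ⟨e, he⟩ := aux_mem s t (cut (obj π c ph) k)
    refine ⟨hx, e, t, y, he ▸ ?_, he ▸ hy⟩
    rcases ph with _ | _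
    · rcases hc with rfl | hc
      · have h1 := aux_add_ne (s := s) (w := fun _ => 1) hk one_ne_zero 0
        have h2 : cut (obj π (0 : Fin n → ℝ) false) k = 0 := by
          ext l
          simp [cut, obj, seq]
        simpa [h2] using h1
      · exact aux_add_ne hk hc t
    · exact aux_add_ne hk (by simp [obj]) t
  · refine lt_of_le_of_lt (Set.ncard_le_ncard 
      (t := ((univ.powersetCard k : Finset (Finset (Fin m))) : Set (Finset (Fin m)))) ?_) ?_
    · rintro B' ⟨⟨x, hx⟩, -⟩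
      exact mem_coe.2 (mem_powersetCard.2 ⟨subset_univ _, hx.2.1⟩)
    · rw [Set.ncard_coe_finset, card_powersetCard, card_univ, Fintype.card_fin, len]
      interval_cases k
      · rw [Nat.choose_zero_right]
        omega
      · rw [Nat.choose_one_right]
        omega

theorem dim_le (ph : Bool) : dim n ph ≤ n + 1 := by cases ph <;> simp [dim]

theorem cross_inv {k : ℕ} (hk : k ≤ n + 1) {s : Bool} {E : Finset (Fin m)} {v d : Fin k → ℝ}
    (h : OK (sy π inp true k) (aux k s) (cut (obj π c true) k) E v d) {t : ℝ}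
    (h1 : ∀ i, cut (coef π inp true i) k ⬝ᵥ (v + t • d) ≤ 1)
    (h2 : cut (obj π c true) k ⬝ᵥ (v + t • d) = 1) : Inv π inp c (false, k - 1, s, E) := by
  obtain ⟨k, rfl⟩ : ∃ k', k = k' + 1 := ⟨E.card, h.card.symm⟩
  have e0 : ∀ u, cut (obj π c true) (k + 1) ⬝ᵥ u = -u 0 := fun u => by
    simp [dotProduct, cut, obj]
  have e1 : ∀ i, cut (coef π inp true i) (k + 1) ⬝ᵥ (v + t • d) =
      1 - (inp i).2 + (sy π inp false k i).1 ⬝ᵥ Fin.tail (v + t • d) := fun i => by
    rw [cut_tail, show (v + t • d) 0 = -1 by linarith [e0 (v + t • d)]]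
    simp only [coef]
    congr 1
    ring
  have e2 : ∀ (y : Fin m → ℝ) (l : Fin k), (∑ i ∈ E, y i • (sy π inp true (k + 1) i).1) l.succ =
      (∑ i ∈ E, y i • (sy π inp false k i).1) l := fun y l => by simp [tower, cut, coef]
  refine ⟨by simpa [dim] using hk, Fin.tail (v + t • d), ⟨subset_univ _, by simpa using h.card,
    li_of (a := fun l => (sy π inp false k l).1) fun y hy => ?_, fun i hi => ?_, fun i _ => ?_⟩,
    ?_, by simp⟩
  · refine mult_unique h.li (y' := fun _ => 0) ?_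
    set W := ∑ i ∈ E, y i • (sy π inp true (k + 1) i).1 with hW
    have h3 : ∀ l : Fin k, W l.succ = 0 := fun l => (e2 y l).trans (congrFun hy l)
    have h4 : W ⬝ᵥ d = 0 := by
      rw [hW, sum_dot]
      exact sum_eq_zero fun l hl => by rw [h.orth l hl, mul_zero]
    have h5 := h.up
    rw [e0] at h5
    simp only [dotProduct, Fin.sum_univ_succ, h3, zero_mul, sum_const_zero, add_zero,
      mul_eq_zero] at h4
    ext l
    refine Fin.cases ?_ (fun l => ?_) l
    · simpa using h4.resolve_right (by linarith)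
    · simpa using h3 l
  · have h3 : cut (coef π inp true i) (k + 1) ⬝ᵥ (v + t • d) = 1 := by
      have h4 : cut (coef π inp true i) (k + 1) ⬝ᵥ v = 1 := h.tight i hi
      have h5 : cut (coef π inp true i) (k + 1) ⬝ᵥ d = 0 := h.orth i hi
      rw [dotProduct_add, dotProduct_smul, h4, h5, smul_zero, add_zero]
    rw [e1] at h3
    show (sy π inp false k i).1 ⬝ᵥ _ = (inp i).2
    linarith
  · have h3 := h1 i
    rw [e1] at h3
    show (sy π inp false k i).1 ⬝ᵥ _ ≤ (inp i).2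
    linarith
  · obtain ⟨t, y, -, hy, hw⟩ := h.dual
    refine ⟨0, y, le_rfl, hy, funext fun l => ?_⟩
    refine Eq.trans ?_ (e2 y l)
    rw [← hw]
    simp [aux, cut, obj]

theorem step_inv (hc : c = 0 ∨ seq π c 0 ≠ 0) (hG : GenAll π inp c) {s s' : State m}
    (h : Step π inp c s s') (hI : Inv π inp c s) (h0 : obj π c s.1 0 ≠ 0) :
    Inv π inp c s' ∧ rank π inp c s' < rank π inp c s := by
  obtain ⟨hk, x₀, hx₀, -, -⟩ := hI
  cases h with
  | enter ph k s B e j x he hj hx hv =>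
    have hd := he.ok.1.onDual hj
    cases he with
    | pivot x' d i hx' hL =>
      refine ⟨⟨hk, x, hx, hd, hv⟩, ?_⟩
      obtain ⟨t, y, ht, hy, hlt⟩ := after_pivot hx'.2.1 ((hG ph k hk).1.nondeg h0) hL hj hx
      refine Nat.add_lt_add_right (Set.ncard_lt_ncard ⟨fun B'' hB => ?_, fun hsub => ?_⟩) _
      · obtain ⟨h1, t', y', ht', hy', hlt'⟩ := hB
        exact ⟨h1, t', y', ht', hy', fun s y'' h => (hlt s y'' h).trans (hlt' t y hy)⟩
      · obtain ⟨-, t', y', -, h1, h2⟩ := hsub (a := insert j (B.erase i)) ⟨⟨x, hx⟩, t, y, ht, hy, hlt⟩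
        exact lt_irrefl t' (h2 t' y' h1)
    | lift x' y s' d hk' hx' hy h1 h2 h3 =>
      refine ⟨⟨hk', x, hx, hd, hv⟩, (rank_lt hc _ _ _ _).trans_le (le_trans (le_of_eq ?_)
        (Nat.le_add_left _ _))⟩
      simp only [tail]
      rw [sum_eq_sum_Ico_succ_bot (a := k + 1) (by omega), ← add_assoc]
  | cross k s B e t he h1 h2 =>
    have hk' : e.k ≤ n + 1 := by
      cases he with
      | pivot => exact hk
      | lift _ _ _ _ hk' => exact hk'
    refine ⟨cross_inv hk' he.ok.1 h1 h2, (rank_lt hc _ _ _ _).trans_le (le_trans ?_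
      (Nat.le_add_left _ _))⟩
    simp only [tail, if_true, Bool.false_eq_true, if_false, add_zero, dim]
    rw [← sum_eq_sum_Ico_succ_bot (by omega)]
    exact (sum_le_sum_of_subset (Ico_subset_Ico_left (Nat.zero_le _))).trans (Nat.le_add_left _ _)

theorem obj_ne (hc : c = 0 ∨ seq π c 0 ≠ 0) {s : State m} (hI : Inv π inp c s)
    (hs : ¬ ∃ a, Stops π inp c s a) : obj π c s.1 0 ≠ 0 := by
  obtain ⟨_ | _, k, s, B⟩ := s
  · obtain ⟨-, x, hx, -⟩ := hI
    exact hc.resolve_left fun h => hs ⟨_, .optimal k s B x hx (Or.inl h)⟩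
  · simp [obj]

theorem exists_step (hc : c = 0 ∨ seq π c 0 ≠ 0) (hG : GenAll π inp c) {s : State m}
    (hI : Inv π inp c s) (hs : ¬ ∃ a, Stops π inp c s a) : ∃ s', Step π inp c s s' := by
  have h0 := obj_ne hc hI hs
  obtain ⟨ph, k, s, B⟩ := s
  obtain ⟨hk, x, hx, hd, hv⟩ := hI
  obtain ⟨e, he⟩ := exists_edge (top := dim n ph) h0 hx hd
    (or_iff_not_imp_right.2 fun h => (hG ph (k + 1) (not_not.1 h)).2)
    (or_iff_not_imp_left.2 fun h ⟨y, hy⟩ => hs (by
      have h1 : k = dim n ph := le_antisymm hk (not_lt.1 h)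
      rcases ph with _ | _
      · exact ⟨_, .optimal k s B x hx (Or.inr ⟨h1, y, hy⟩)⟩
      · subst h1
        exact ⟨_, .infeasible s B x y hx (hv rfl) hy⟩))
  obtain ⟨hO, hval⟩ := he.ok
  rcases ph with _ | _
  · obtain ⟨j, t, -, hj, hx'⟩ := hO.enter fun h => hs ⟨_, .unbounded k s B e he h⟩
    exact ⟨_, .enter false k s B e j _ he hj hx' (by simp)⟩
  have h1 : cut (obj π c true) e.k ⬝ᵥ e.v < 1 := (hval x hx).trans_lt (hv rfl)
  have h2 := hO.up
  set t₀ := (1 - cut (obj π c true) e.k ⬝ᵥ e.v) / (cut (obj π c true) e.k ⬝ᵥ e.d) with ht₀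
  have h3 : 0 ≤ t₀ := div_nonneg (by linarith) h2.le
  have h4 : cut (obj π c true) e.k ⬝ᵥ (e.v + t₀ • e.d) = 1 := by
    rw [dotProduct_add, dotProduct_smul, smul_eq_mul, div_mul_cancel₀ _ h2.ne']
    ring
  have h5 : ∀ i, cut (coef π inp true i) e.k ⬝ᵥ e.v ≤ 1 := hO.feas
  by_cases hb : ∀ j, cut (coef π inp true j) e.k ⬝ᵥ e.d ≤ 0
  · refine ⟨_, .cross k s B e t₀ he (fun i => ?_) h4⟩
    rw [dotProduct_add, dotProduct_smul, smul_eq_mul]
    nlinarith [h5 i, hb i]
  obtain ⟨j, t, ht, hj, hx'⟩ := hO.enter hb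
  by_cases h6 : cut (obj π c true) e.k ⬝ᵥ (e.v + t • e.d) < 1
  · exact ⟨_, .enter true k s B e j _ he hj hx' fun _ => h6⟩
  refine ⟨_, .cross k s B e t₀ he (fun i => ?_) h4⟩
  have h7 : cut (coef π inp true i) e.k ⬝ᵥ (e.v + t • e.d) ≤ 1 := hx'.2.2.2.2 i (mem_univ i)
  rw [dotProduct_add, dotProduct_smul, smul_eq_mul] at h6 h7 ⊢
  have h8 : t₀ ≤ t := (div_le_iff₀ h2).2 (by linarith)
  rcases le_total 0 (cut (coef π inp true i) e.k ⬝ᵥ e.d) with h | h <;> nlinarith [h5 i]

theorem dot_pad {k : ℕ} (hk : k ≤ n) (u : Fin n → ℝ) (x : Fin k → ℝ) :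
    u ⬝ᵥ pad π x = cut (seq π u) k ⬝ᵥ x := by
  rw [dotProduct, dotProduct]
  refine (Fintype.sum_of_injective (fun l : Fin k => π (Fin.castLE hk l))
    (π.injective.comp (Fin.castLE_injective hk)) _ _ (fun j hj => ?_) fun l => ?_).symm
  · rw [pad, dif_neg fun h => hj ⟨⟨π.symm j, h⟩, by simp [Fin.castLE]⟩, mul_zero]
  · simp [pad, cut, seq, l.2.trans_le hk, Fin.castLE]

theorem cut_dot (u x : Fin n → ℝ) : cut (seq π u) n ⬝ᵥ (fun l => x (π l)) = u ⬝ᵥ x := by
  rw [dotProduct, dotProduct, ← Equiv.sum_comp π fun j => u j * x j]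
  simp [cut, seq]

theorem stops_correct {s : State m} (hI : Inv π inp c s) {a : Answer n} (h : Stops π inp c s a) :
    Correct inp c a := by
  cases h with
  | infeasible s B x y hx hv hy =>
    rintro ⟨x₀, h₀⟩
    have h1 := hx.optimal hy (u := Fin.cons (-1) fun l => x₀ (π l)) fun i _ => by
      have h2 := h₀ i
      rw [← cut_dot (π := π)] at h2
      show cut (coef π inp true i) (n + 1) ⬝ᵥ _ ≤ 1
      rw [cut_tail, Fin.tail_cons, Fin.cons_zero]
      simp only [coef]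
      linarith
    refine absurd (h1.trans_lt hv) (not_lt.2 (le_of_eq ?_))
    simp [dotProduct, cut, obj]
  | unbounded k s B e he hb =>
    have hk : e.k ≤ n := by
      cases he with
      | pivot => exact hI.1
      | lift _ _ _ _ hk' => exact hk'
    have hO := he.ok.1
    have h1 : 0 < cut (seq π c) e.k ⬝ᵥ e.d := hO.up
    intro K
    set t := max 0 ((K + 1 - cut (seq π c) e.k ⬝ᵥ e.v) / (cut (seq π c) e.k ⬝ᵥ e.d)) with ht
    refine ⟨pad π (e.v + t • e.d), fun i => ?_, ?_⟩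
    · have h2 : cut (seq π (inp i).1) e.k ⬝ᵥ e.v ≤ (inp i).2 := hO.feas i
      have h3 : cut (seq π (inp i).1) e.k ⬝ᵥ e.d ≤ 0 := hb i
      rw [dot_pad hk, dotProduct_add, dotProduct_smul, smul_eq_mul]
      nlinarith [le_max_left 0 ((K + 1 - cut (seq π c) e.k ⬝ᵥ e.v) / (cut (seq π c) e.k ⬝ᵥ e.d))]
    · rw [dot_pad hk, dotProduct_add, dotProduct_smul, smul_eq_mul]
      linarith [(div_le_iff₀ h1).1 (ht ▸ le_max_right _ _ : _ ≤ t)]
  | optimal k s B x hx h =>
    have hk : k ≤ n := hI.1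
    refine ⟨fun i => (dot_pad hk _ x).trans_le (hx.2.2.2.2 i (mem_univ i)), fun x' hx' => ?_⟩
    rcases h with rfl | ⟨rfl, y, hy⟩
    · simp
    · rw [dot_pad hk, ← cut_dot (π := π)]
      exact hx.optimal hy fun i _ => (cut_dot _ _).trans_le (hx' i)

theorem halts_of_inv (hc : c = 0 ∨ seq π c 0 ≠ 0) (hG : GenAll π inp c) (N : ℕ) :
    ∀ s, Inv π inp c s → rank π inp c s ≤ N → Halts π inp c (Correct inp c) s N := by
  induction N with
  | zero =>
    intro s hI hN'
    by_cases hs : ∃ a, Stops π inp c s a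
    · exact .stop s _ hs fun a => stops_correct hI
    · obtain ⟨s', h⟩ := exists_step hc hG hI hs
      have := (step_inv hc hG h hI (obj_ne hc hI hs)).2
      omega
  | succ N ih =>
    intro s hI hN'
    by_cases hs : ∃ a, Stops π inp c s a
    · exact .stop s _ hs fun a => stops_correct hI
    · refine .step s N hs (exists_step hc hG hI hs) fun s' h => ?_
      have := step_inv hc hG h hI (obj_ne hc hI hs)
      exact ih s' this.1 (by omega)

theorem halts (hc : c = 0 ∨ seq π c 0 ≠ 0) (hG : GenAll π inp c) :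
    Halts π inp c (Correct inp c) (true, 0, true, ∅)
      (∑ ph, ∑ k ∈ Ico 0 (dim n ph + 1), len π inp c ph k) := by
  refine halts_of_inv hc hG _ _ ⟨Nat.zero_le _, 0, ⟨subset_univ _, rfl, linearIndependent_empty_type,
    by simp, fun i _ => by simp [tower, rhs]⟩, ⟨0, 0, le_rfl, by simp, Subsingleton.elim _ _⟩,
    by simp⟩ ((rank_lt hc _ _ _ _).le.trans (le_of_eq ?_))
  rw [Fintype.sum_bool, sum_eq_sum_Ico_succ_bot (f := len π inp c true) (by omega), add_assoc]
  rfl

end Pool.Agent.Lib.MP_3b7f8d_lc.DD
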