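import Mathlib
import Pool.Agent.Lib.MP_3b7f8d_lc.DD.Run

/-! The laws of the stages. -/

namespace Pool.Agent.Lib.MP_3b7f8d_lc.DD

open Finset MeasureTheory ProbabilityTheory Pool.Agent.Lib.MP_3b7f8d_lc.FP
open scoped ENNReal

variable {n m k : ℕ}

theorem ae_gen {ν : Fin m → Measure (Row k)} [∀ i, IsProbabilityMeasure (ν i)] {U : ℝ}
    (hν : ∀ i, RowOK (ν i) U) (V : Submodule ℝ (Fin k → ℝ)) : ∀ᵐ r ∂Measure.pi ν, Gen r V := by
  classical
  refine ae_all_iff.2 fun i => ae_all_iff.2 fun T => ?_
  by_cases h : i ∉ T ∧ Module.finrank ℝ V + T.card < k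
  swap
  · exact Filter.Eventually.of_forall fun r h1 h2 => absurd ⟨h1, h2⟩ h
  have hE : MeasurableSet {r : Fin m → Row k |
      ∃ v ∈ V, ∃ c : Fin m → ℝ, (r i).1 = v + ∑ l ∈ T, c l • (r l).1} := by
    have h1 := measurableSet_exists (X := Fin m → Row k) (Y := (Fin k → ℝ) × (Fin m → ℝ))
      (C := fun r u => u.1 ∈ V ∧ (r i).1 = u.1 + ∑ l ∈ T, u.2 l • (r l).1)
      (IsClosed.and (V.closed_of_finiteDimensional.preimage (by fun_prop))
        (isClosed_eq (by fun_prop) (by fun_prop)))
    simpa only [Prod.exists, exists_and_left] using h1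
  have key := pi_le_of_update ν i hE MeasurableSet.univ (b := 0) fun r => ?_
  · filter_upwards [measure_eq_zero_iff_ae_notMem.1 (le_antisymm (by simpa using key) zero_le)]
      with r hr _ _ using hr
  refine le_trans (measure_mono ?_) (((hν i).dist 1
    (V ⊔ Submodule.span ℝ (T.image fun l => (r l).1 : Finset _)) 0 le_rfl ?_).trans (by simp))
  · rintro ρ ⟨v, hv, c, h1⟩
    rw [Function.update_self] at h1
    refine ⟨_, Submodule.add_mem_sup hv (Submodule.sum_mem _ fun l hl =>
      Submodule.smul_mem _ (c l) (Submodule.subset_span (mem_coe.2 (mem_image_of_mem _ hl)))), ?_⟩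
    rw [h1, sum_congr rfl fun l hl => by rw [update_rows h.1 l hl], sub_self, norm_zero]
  · have h1 := Submodule.finrank_add_le_finrank_add_finrank V
      (Submodule.span ℝ (T.image fun l => (r l).1 : Finset _))
    have h2 := finrank_span_finset_le_card (R := ℝ) (T.image fun l => (r l).1)
    have h3 := card_image_le (s := T) (f := fun l => (r l).1)
    rw [Set.finrank] at h2
    omega

theorem pi_precomp {ι κ : Type} [Fintype ι] [Fintype κ] (μ : ι → Measure ℝ)
    [∀ i, IsProbabilityMeasure (μ i)] {e : κ → ι} (he : Function.Injective e) :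
    MeasurePreserving (fun (a : ι → ℝ) l => a (e l)) (Measure.pi μ) (Measure.pi fun l => μ (e l)) := by
  refine ⟨by fun_prop, ?_⟩
  have h := (iIndepFun_pi (μ := μ) (X := fun _ => id) fun _ => aemeasurable_id).precomp he
  refine ((iIndepFun_iff_map_fun_eq_pi_map fun l =>
    (measurable_pi_apply (e l)).aemeasurable).1 h).trans (congrArg _ (funext fun l => ?_))
  exact (measurePreserving_eval μ (e l)).map_eq

theorem preserving_elim (μ : Option (Fin n) → Measure ℝ) [∀ i, IsProbabilityMeasure (μ i)] :
    MeasurePreserving (fun (ρ : Row n) (o : Option (Fin n)) => o.elim ρ.2 ρ.1)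
      ((Measure.pi fun l => μ (some l)).prod (μ none)) (Measure.pi μ) := by
  have hm : Measurable fun (ρ : Row n) (o : Option (Fin n)) => o.elim ρ.2 ρ.1 :=
    measurable_pi_iff.2 fun o => by cases o <;> simp only [Option.elim] <;> fun_prop
  refine ⟨hm, (Measure.pi_eq fun s hs => ?_).symm⟩
  rw [Measure.map_apply hm (MeasurableSet.univ_pi hs)]
  have h : (fun (ρ : Row n) (o : Option (Fin n)) => o.elim ρ.2 ρ.1) ⁻¹' Set.univ.pi s =
      Set.univ.pi (fun l => s (some l)) ×ˢ s none := by
    ext p
    simp only [Set.mem_preimage, Set.mem_pi, Set.mem_univ, true_imp_iff, Set.mem_prod,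
      Option.forall]
    exact and_comm
  rw [h, Measure.prod_prod, Measure.pi_pi, Fintype.prod_option, mul_comm]

variable {f : ℝ → ℝ} {κ σ : ℝ}

theorem preserving_sub (hf : Measurable f) (hσ : 0 < σ) (u : ℝ) :
    MeasurePreserving (fun x : ℝ => x - 1) (pert f σ u) (pert f σ (u - 1)) := by
  refine ⟨by fun_prop, Measure.ext_of_lintegral _ fun F hF => ?_⟩
  rw [lintegral_map hF (by fun_prop), lintegral_pert hf hσ _ (by fun_prop),
    lintegral_pert hf hσ _ hF]
  simp only [add_sub_right_comm]

theorem stage_law (hf : Den f κ) (hσ : 0 < σ) (hσ1 : σ ≤ 1) {A : Fin m → Fin n → ℝ} {b : Fin m → ℝ}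
    (hA : ∀ i l, |A i l| ≤ 1) (hb : ∀ i, |b i| ≤ 1) (π : Equiv.Perm (Fin n)) (ph : Bool)
    (hk : k ≤ dim n ph) : ∃ (A' : Fin m → Fin k → ℝ) (β : Fin m → Measure ℝ),
      (∀ i l, |A' i l| ≤ 2 / σ + κ) ∧ (∀ i, Rhs (β i) (2 / σ + κ)) ∧
      MeasurePreserving (fun inp => sy π inp ph k) (inputLaw f σ A b) (sysLaw f σ A' β) := by
  have hp : ∀ u, IsProbabilityMeasure (pert f σ u) := fun u => (hf.nice hσ hσ1 (le_refl |u|)).prob
  have hκ := hf.kappa
  have h2 : 2 ≤ 2 / σ := (le_div_iff₀ hσ).2 (by linarith)
  rcases ph with _ | _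
  · refine ⟨fun i l => A i (π (Fin.castLE hk l)), fun i => pert f σ (b i),
      fun i l => (hA _ _).trans (by linarith), fun i => ⟨hp _, fun ε hε => ?_,
      (hf.nice hσ hσ1 (hb i)).mom.trans (ENNReal.ofReal_le_ofReal (by linarith))⟩, ?_⟩
    · refine ((hf.nice hσ hσ1 (hb i)).le _).trans ?_
      rw [show {b : ℝ | |b| ≤ ε} = Set.Icc (-ε) ε from Set.ext fun x => (abs_le (a := x)), Real.volume_Icc,
        ← ENNReal.ofReal_mul (by positivity)]
      refine ENNReal.ofReal_le_ofReal ?_
      have h3 : 1 / σ * (ε - -ε) = 2 / σ * ε := by ring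
      nlinarith
    · convert measurePreserving_pi _ _ fun i => (pi_precomp (fun j => pert f σ (A i j))
        (π.injective.comp (Fin.castLE_injective hk))).prod (MeasurePreserving.id (pert f σ (b i)))
        using 1
      · ext inp i l
        · exact dif_pos (l.2.trans_le hk)
        · rfl
      all_goals rfl
  · set e : Fin k → Option (Fin n) := fun l => Fin.cases none (fun j => some (π j))
      (Fin.castLE hk l) with he
    have hinj : Function.Injective e := by
      refine Function.Injective.comp (g := fun l : Fin (n + 1) =>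
        (Fin.cases none (fun j => some (π j)) l : Option (Fin n))) ?_ (Fin.castLE_injective hk)
      intro l l' h
      rcases Fin.eq_zero_or_eq_succ l with rfl | ⟨j, rfl⟩ <;>
        rcases Fin.eq_zero_or_eq_succ l' with rfl | ⟨j', rfl⟩ <;> simp_all
    refine ⟨fun i l => (e l).elim (b i - 1) (A i), fun _ => Measure.dirac 1, fun i l => ?_,
      fun i => ⟨inferInstance, fun ε hε => ?_, ?_⟩, ?_⟩
    · show |(e l).elim (b i - 1) (A i)| ≤ _
      rcases e l with _ | j
      · exact (abs_sub (b i) 1).trans (by rw [abs_one]; linarith [hb i])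
      · exact (hA i j).trans (by linarith)
    · by_cases h : 1 ≤ ε
      · exact prob_le_one.trans (ENNReal.one_le_ofReal.2 (by nlinarith))
      · rw [Measure.dirac_apply, Set.indicator_of_notMem (by simpa using h)]
        exact zero_le
    · rw [lintegral_dirac]
      exact ENNReal.ofReal_le_ofReal (by rw [abs_one]; linarith)
    · have h3 : ∀ P : Measure (Fin k → ℝ), IsProbabilityMeasure P → MeasurePreserving
          (fun a => (a, (1 : ℝ))) P (P.prod (Measure.dirac 1)) := fun P _ =>
        ⟨by fun_prop, (Measure.prod_dirac 1).symm⟩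
      convert measurePreserving_pi _ _ fun i => (h3 _ inferInstance).comp ((pi_precomp
        (fun o : Option (Fin n) => pert f σ (o.elim (b i - 1) (A i))) hinj).comp
        ((preserving_elim _).comp ((MeasurePreserving.id _).prod
          (preserving_sub hf.meas hσ (b i))))) using 1
      · ext inp i l
        · obtain ⟨_ | l, hl⟩ := l
          · rfl
          · have h4 : l < n := by simp only [dim] at hk; omega
            exact dif_pos h4
        · rfl
      all_goals rfl

end Pool.Agent.Lib.MP_3b7f8d_lc.DD
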